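import Pool.Agent.L0h73.CN.Core

/-!
The choice of the cofactor `k`: many primes of the form `d k + 1` with `d ∣ L`.
-/

set_option autoImplicit false

namespace Pool.Agent.L0h73.CN

open Finset

/-- the condition on `k`: `d k + 1` is a prime in `(X, Y]` -/
def Cd (X Y d k : ℕ) : Prop := (d * k + 1).Prime ∧ X < d * k + 1 ∧ d * k + 1 ≤ Y

open Classical in
lemma one_modulus {c : ℝ} (hc : 0 < c) {X Y d : ℕ} (hX : 1 ≤ X) (hd : 0 < d)
    (h : c / (d.totient : ℝ) ≤ ∑ p ∈ (Ioc X Y).filter (fun p => p.Prime ∧ p ≡ 1 [MOD d]), (1 : ℝ) / p) :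
    c ≤ ∑ k ∈ (Icc 1 Y).filter (fun k => Cd X Y d k), (1 : ℝ) / k := by
  have hd0 : (0 : ℝ) < d := by exact_mod_cast hd
  have hφ : (0 : ℝ) < d.totient := by exact_mod_cast Nat.totient_pos.2 hd
  have hφd : (d.totient : ℝ) ≤ d := by exact_mod_cast Nat.totient_le d
  have h1 : c ≤ d * ∑ p ∈ (Ioc X Y).filter (fun p => p.Prime ∧ p ≡ 1 [MOD d]), (1 : ℝ) / p := by
    have h2 : d * (c / (d.totient : ℝ)) ≤
        d * ∑ p ∈ (Ioc X Y).filter (fun p => p.Prime ∧ p ≡ 1 [MOD d]), (1 : ℝ) / p :=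
      mul_le_mul_of_nonneg_left h hd0.le
    have h3 : c ≤ d * (c / (d.totient : ℝ)) := by
      rw [mul_div_assoc', le_div_iff₀ hφ]
      nlinarith
    linarith
  refine h1.trans ?_
  rw [Finset.mul_sum]
  have hF : ∀ p ∈ (Ioc X Y).filter (fun p => p.Prime ∧ p ≡ 1 [MOD d]),
      d * ((p - 1) / d) = p - 1 ∧ 1 ≤ (p - 1) / d ∧ p.Prime ∧ X < p ∧ p ≤ Y := by
    intro p hp
    rw [mem_filter, mem_Ioc] at hp
    obtain ⟨⟨hp1, hp2⟩, hp3, hp4⟩ := hp
    have h5 : d ∣ p - 1 := (Nat.modEq_iff_dvd' hp3.one_lt.le).1 hp4.symm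
    have h6 : d * ((p - 1) / d) = p - 1 := Nat.mul_div_cancel' h5
    refine ⟨h6, ?_, hp3, hp1, hp2⟩
    have h7 := hp3.two_le
    rcases Nat.eq_zero_or_pos ((p - 1) / d) with h8 | h8
    · rw [h8] at h6
      omega
    · exact h8
  have hinj : Set.InjOn (fun p => (p - 1) / d)
      ((Ioc X Y).filter (fun p => p.Prime ∧ p ≡ 1 [MOD d]) : Finset ℕ) := by
    intro p hp p' hp' hpp
    simp only at hpp
    have h2 := hF p hp
    have h3 := hF p' hp'
    rw [hpp] at h2
    have := h2.2.2.1.two_le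
    have := h3.2.2.1.two_le
    omega
  calc ∑ p ∈ (Ioc X Y).filter (fun p => p.Prime ∧ p ≡ 1 [MOD d]), d * ((1 : ℝ) / p)
      ≤ ∑ p ∈ (Ioc X Y).filter (fun p => p.Prime ∧ p ≡ 1 [MOD d]), (1 : ℝ) / (((p - 1) / d : ℕ) : ℝ) := by
        apply Finset.sum_le_sum
        intro p hp
        obtain ⟨h2, h3, h4, h5, h6⟩ := hF p hp
        have hp0 : (0 : ℝ) < p := by exact_mod_cast h4.pos
        have hk0 : (0 : ℝ) < (((p - 1) / d : ℕ) : ℝ) := by exact_mod_cast h3
        rw [mul_one_div, div_le_div_iff₀ hp0 hk0, one_mul]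
        have h7 : d * ((p - 1) / d) ≤ p := by omega
        exact_mod_cast h7
    _ = ∑ k ∈ ((Ioc X Y).filter (fun p => p.Prime ∧ p ≡ 1 [MOD d])).image (fun p => (p - 1) / d),
          (1 : ℝ) / k := by
        rw [Finset.sum_image hinj]
    _ ≤ ∑ k ∈ (Icc 1 Y).filter (fun k => Cd X Y d k), (1 : ℝ) / k := by
        apply Finset.sum_le_sum_of_subset_of_nonneg
        · intro k hk
          rw [mem_image] at hk
          obtain ⟨p, hp, rfl⟩ := hk
          obtain ⟨h2, h3, h4, h5, h6⟩ := hF p hp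
          have h7 : d * ((p - 1) / d) + 1 = p := by
            have := h4.two_le
            omega
          rw [mem_filter, mem_Icc]
          refine ⟨⟨h3, ?_⟩, ?_⟩
          · have : (p - 1) / d ≤ p - 1 := Nat.div_le_self _ _
            omega
          · unfold Cd
            rw [h7]
            exact ⟨h4, h5, h6⟩
        · intro k _ _
          positivity

lemma harm_le (Y : ℕ) (hY : 1 ≤ Y) : ∑ k ∈ Icc 1 Y, (1 : ℝ) / k ≤ 1 + Real.log Y := by
  have h := harmonic_le_one_add_log Y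
  rw [harmonic_eq_sum_Icc] at h
  push_cast at h
  simpa [one_div] using h

lemma harm_mult (Y a : ℕ) (ha : 0 < a) :
    ∑ k ∈ (Icc 1 Y).filter (fun k => a ∣ k), (1 : ℝ) / k ≤ (1 / (a : ℝ)) * ∑ k ∈ Icc 1 Y, (1 : ℝ) / k := by
  have ha0 : (0 : ℝ) < a := by exact_mod_cast ha
  rw [Finset.mul_sum]
  have hinj : Set.InjOn (fun k => k / a) ((Icc 1 Y).filter (fun k => a ∣ k) : Finset ℕ) := by
    intro k hk k' hk' hkk
    simp only at hkk
    have h1 := (mem_filter.1 hk).2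
    have h2 := (mem_filter.1 hk').2
    rw [← Nat.mul_div_cancel' h1, ← Nat.mul_div_cancel' h2, hkk]
  calc ∑ k ∈ (Icc 1 Y).filter (fun k => a ∣ k), (1 : ℝ) / k
      = ∑ k ∈ (Icc 1 Y).filter (fun k => a ∣ k), (1 / (a : ℝ)) * ((1 : ℝ) / ((k / a : ℕ) : ℝ)) := by
        apply Finset.sum_congr rfl
        intro k hk
        have h1 := (mem_filter.1 hk).2
        have h2 : (a : ℝ) * ((k / a : ℕ) : ℝ) = k := by
          exact_mod_cast Nat.mul_div_cancel' h1
        rw [one_div_mul_one_div, h2]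
    _ = ∑ j ∈ ((Icc 1 Y).filter (fun k => a ∣ k)).image (fun k => k / a), (1 / (a : ℝ)) * ((1 : ℝ) / j) := by
        rw [Finset.sum_image hinj]
    _ ≤ ∑ j ∈ Icc 1 Y, (1 / (a : ℝ)) * ((1 : ℝ) / j) := by
        apply Finset.sum_le_sum_of_subset_of_nonneg
        · intro j hj
          rw [mem_image] at hj
          obtain ⟨k, hk, rfl⟩ := hj
          rw [mem_filter, mem_Icc] at hk
          rw [mem_Icc]
          refine ⟨?_, (Nat.div_le_self _ _).trans hk.1.2⟩
          exact Nat.div_pos (Nat.le_of_dvd hk.1.1 hk.2) ha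
        · intro j _ _
          positivity

open Classical in
theorem choose_k (Q : Finset ℕ) (t : ℕ) (hQ : ∀ q ∈ Q, q.Prime) (hQt : Q ⊆ Icc 1 t) (X Y u : ℕ)
    (hX : 1 ≤ X) (hY : 1 ≤ Y) (c : ℝ) (hc : 0 < c)
    (hpage : ∀ T ∈ powersetCard u Q, c / ((pr T).totient : ℝ) ≤
      ∑ p ∈ (Ioc X Y).filter (fun p => p.Prime ∧ p ≡ 1 [MOD pr T]), (1 : ℝ) / p) :
    ∃ (M : ℕ) (B : Finset ℕ), B ⊆ Q ∧ 0 < M ∧ M.Coprime (pr B) ∧ pr Q ≤ M * pr B ∧
      ∃ P : Finset ℕ, (∀ p ∈ P, p.Prime ∧ X < p ∧ p ≤ Y ∧ M ∣ p - 1 ∧ p - 1 ∣ M * pr B) ∧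
        c * (Q.card.choose u : ℝ) ≤ P.card * ((t + 1) * (1 + Real.log Y)) := by
  set f : ℕ → Finset (Finset ℕ) := fun k => (powersetCard u Q).filter (fun T => Cd X Y (pr T) k) with hf
  set g : ℕ → Finset (Finset ℕ) := fun k => Q.powerset.filter (fun A => pr A ∣ k) with hg
  have hsubp : ∀ {A : Finset ℕ}, A ⊆ Q → ∀ q ∈ A, q.Prime := fun h q hq => hQ q (h hq)
  have hlogY : 0 ≤ Real.log Y := Real.log_nonneg (by exact_mod_cast hY)
  set W : ℝ := (t + 1) * (1 + Real.log Y) with hW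
  have hW0 : 0 < W := by positivity
  -- step 1 and 2
  have h2 : c * (Q.card.choose u : ℝ) ≤ ∑ k ∈ Icc 1 Y, ((f k).card : ℝ) * (1 / (k : ℝ)) := by
    have h3 : ∑ T ∈ powersetCard u Q, c ≤
        ∑ T ∈ powersetCard u Q, ∑ k ∈ (Icc 1 Y).filter (fun k => Cd X Y (pr T) k), (1 : ℝ) / k := by
      apply Finset.sum_le_sum
      intro T hT
      exact one_modulus hc hX (pr_pos (hsubp (mem_powersetCard.1 hT).1)) (hpage T hT)
    rw [Finset.sum_const, card_powersetCard, nsmul_eq_mul, mul_comm] at h3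
    refine h3.trans (le_of_eq ?_)
    have h4 : ∀ T ∈ powersetCard u Q, ∑ k ∈ (Icc 1 Y).filter (fun k => Cd X Y (pr T) k), (1 : ℝ) / k =
        ∑ k ∈ Icc 1 Y, if Cd X Y (pr T) k then (1 : ℝ) / k else 0 := fun T _ => Finset.sum_filter _ _
    rw [Finset.sum_congr rfl h4, Finset.sum_comm]
    apply Finset.sum_congr rfl
    intro k _
    rw [← Finset.sum_filter, Finset.sum_const, nsmul_eq_mul]
  -- step 3
  have h3 : ∑ k ∈ Icc 1 Y, ((g k).card : ℝ) * (1 / (k : ℝ)) ≤ W := by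
    have h4 : ∀ k ∈ Icc 1 Y, ((g k).card : ℝ) * (1 / (k : ℝ)) =
        ∑ A ∈ Q.powerset, if pr A ∣ k then (1 : ℝ) / k else 0 := by
      intro k _
      rw [← Finset.sum_filter, Finset.sum_const, nsmul_eq_mul]
    rw [Finset.sum_congr rfl h4, Finset.sum_comm]
    calc ∑ A ∈ Q.powerset, ∑ k ∈ Icc 1 Y, (if pr A ∣ k then (1 : ℝ) / k else 0)
        ≤ ∑ A ∈ Q.powerset, (1 / (pr A : ℝ)) * ∑ k ∈ Icc 1 Y, (1 : ℝ) / k := by
          apply Finset.sum_le_sum
          intro A hA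
          rw [← Finset.sum_filter]
          exact harm_mult Y (pr A) (pr_pos (hsubp (mem_powerset.1 hA)))
      _ = (∏ q ∈ Q, (1 + 1 / (q : ℝ))) * ∑ k ∈ Icc 1 Y, (1 : ℝ) / k := by
          rw [← Finset.sum_mul, Finset.prod_one_add]
          congr 1
          apply Finset.sum_congr rfl
          intro A _
          unfold pr
          rw [Nat.cast_prod]
          simp only [one_div]
          rw [Finset.prod_inv_distrib]
      _ ≤ W := by
          rw [hW]
          apply mul_le_mul (prod_one_add_inv_le Q t hQt) (harm_le Y hY)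
          · exact Finset.sum_nonneg fun k _ => by positivity
          · positivity
  -- step 4
  obtain ⟨k, hk, h4⟩ : ∃ k ∈ Icc 1 Y, c * (Q.card.choose u : ℝ) * (g k).card ≤ (f k).card * W := by
    by_contra hcon
    push Not at hcon
    have h5 : ∑ k ∈ Icc 1 Y, ((f k).card : ℝ) * W * (1 / (k : ℝ)) <
        ∑ k ∈ Icc 1 Y, c * (Q.card.choose u : ℝ) * (g k).card * (1 / (k : ℝ)) := by
      apply Finset.sum_lt_sum_of_nonempty ⟨1, by rw [mem_Icc]; omega⟩
      intro k hk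
      have hk0 : (0 : ℝ) < k := by
        have := (mem_Icc.1 hk).1
        exact_mod_cast this
      exact mul_lt_mul_of_pos_right (hcon k hk) (by positivity)
    have h6 : ∑ k ∈ Icc 1 Y, ((f k).card : ℝ) * W * (1 / (k : ℝ)) =
        W * ∑ k ∈ Icc 1 Y, ((f k).card : ℝ) * (1 / (k : ℝ)) := by
      rw [Finset.mul_sum]
      exact Finset.sum_congr rfl fun k _ => by ring
    have h7 : ∑ k ∈ Icc 1 Y, c * (Q.card.choose u : ℝ) * (g k).card * (1 / (k : ℝ)) =
        c * (Q.card.choose u : ℝ) * ∑ k ∈ Icc 1 Y, ((g k).card : ℝ) * (1 / (k : ℝ)) := by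
      rw [Finset.mul_sum]
      exact Finset.sum_congr rfl fun k _ => by ring
    rw [h6, h7] at h5
    have h8 : c * (Q.card.choose u : ℝ) * ∑ k ∈ Icc 1 Y, ((g k).card : ℝ) * (1 / (k : ℝ)) ≤
        c * (Q.card.choose u : ℝ) * W := mul_le_mul_of_nonneg_left h3 (by positivity)
    have h9 : W * (c * (Q.card.choose u : ℝ)) ≤ W * ∑ k ∈ Icc 1 Y, ((f k).card : ℝ) * (1 / (k : ℝ)) :=
      mul_le_mul_of_nonneg_left h2 hW0.le
    linarith
  have hk1 : 1 ≤ k := (mem_Icc.1 hk).1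
  -- step 5
  set D : Finset ℕ := Q.filter (fun q => q ∣ k) with hD
  have hDQ : D ⊆ Q := filter_subset _ _
  have hgD : g k = D.powerset := by
    ext A
    rw [hg]
    simp only [mem_filter, mem_powerset]
    constructor
    · rintro ⟨h5, h6⟩ q hq
      rw [hD, mem_filter]
      exact ⟨h5 hq, (pr_dvd (hsubp h5)).1 h6 q hq⟩
    · intro h5
      refine ⟨h5.trans hDQ, ?_⟩
      rw [pr_dvd (hsubp (h5.trans hDQ))]
      intro q hq
      exact (mem_filter.1 (h5 hq)).2
  have hsumf : ∑ A ∈ D.powerset, (((f k).filter (fun T => T ∩ D = A)).card : ℝ) = (f k).card := by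
    rw [← Nat.cast_sum, ← Finset.card_eq_sum_card_fiberwise]
    intro T _
    exact mem_powerset.2 inter_subset_right
  obtain ⟨A, hA, h5⟩ : ∃ A ∈ D.powerset,
      c * (Q.card.choose u : ℝ) ≤ (((f k).filter (fun T => T ∩ D = A)).card : ℝ) * W := by
    by_contra hcon
    push Not at hcon
    have h6 : ∑ A ∈ D.powerset, (((f k).filter (fun T => T ∩ D = A)).card : ℝ) * W <
        ∑ A ∈ D.powerset, c * (Q.card.choose u : ℝ) :=
      Finset.sum_lt_sum_of_nonempty ⟨∅, empty_mem_powerset _⟩ hcon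
    rw [← Finset.sum_mul, hsumf, Finset.sum_const, nsmul_eq_mul, ← hgD] at h6
    linarith
  rw [mem_powerset] at hA
  set B : Finset ℕ := Q \ D with hB
  have hBQ : B ⊆ Q := sdiff_subset
  have hAB : Disjoint A B := Finset.disjoint_of_subset_left hA disjoint_sdiff
  set P : Finset ℕ := ((f k).filter (fun T => T ∩ D = A)).image (fun T => pr T * k + 1) with hP
  have hPcard : P.card = ((f k).filter (fun T => T ∩ D = A)).card := by
    rw [hP]
    apply Finset.card_image_of_injOn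
    intro T hT T' hT' hTT
    simp only at hTT
    have e1 := (mem_powersetCard.1 (mem_filter.1 (mem_filter.1 hT).1).1).1
    have e2 := (mem_powersetCard.1 (mem_filter.1 (mem_filter.1 hT').1).1).1
    apply pr_inj (hsubp e1) (hsubp e2)
    have e3 : pr T * k = pr T' * k := by omega
    exact Nat.eq_of_mul_eq_mul_right (by omega) e3
  refine ⟨k * pr A, B, hBQ, Nat.mul_pos (by omega) (pr_pos (hsubp (hA.trans hDQ))), ?_, ?_, P, ?_, ?_⟩
  · apply Nat.Coprime.mul_left
    · apply Nat.Coprime.prod_right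
      intro q hq
      rw [Nat.coprime_comm, (hQ q (hBQ hq)).coprime_iff_not_dvd]
      intro h6
      rw [hB, Finset.mem_sdiff, hD, mem_filter] at hq
      exact hq.2 ⟨hq.1, h6⟩
    · exact pr_coprime (hsubp (hA.trans hDQ)) (hsubp hBQ) hAB
  · have e1 : Q = D ∪ B := by rw [hB, Finset.union_sdiff_of_subset hDQ]
    have e2 : pr Q = pr D * pr B := by
      conv_lhs => rw [e1]
      exact pr_union disjoint_sdiff
    rw [e2]
    apply Nat.mul_le_mul_right
    have e3 : pr D ∣ k := (pr_dvd (hsubp hDQ)).2 fun q hq => (mem_filter.1 hq).2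
    calc pr D ≤ k := Nat.le_of_dvd (by omega) e3
      _ ≤ k * pr A := Nat.le_mul_of_pos_right _ (pr_pos (hsubp (hA.trans hDQ)))
  · intro p hp
    rw [hP, mem_image] at hp
    obtain ⟨T, hT, rfl⟩ := hp
    rw [mem_filter] at hT
    obtain ⟨hT1, hT2⟩ := hT
    rw [hf, mem_filter, mem_powersetCard] at hT1
    obtain ⟨⟨hT3, _⟩, hT4, hT5, hT6⟩ := hT1
    have e1 : T = A ∪ (T \ D) := by
      rw [← hT2]
      ext q
      simp only [mem_union, mem_inter, Finset.mem_sdiff]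
      tauto
    have e2 : pr T = pr A * pr (T \ D) := by
      conv_lhs => rw [e1]
      exact pr_union (Finset.disjoint_of_subset_left hA disjoint_sdiff)
    refine ⟨hT4, hT5, hT6, ?_, ?_⟩
    · rw [Nat.add_sub_cancel, e2]
      exact ⟨pr (T \ D), by ring⟩
    · rw [Nat.add_sub_cancel, e2]
      have e3 : pr (T \ D) ∣ pr B := Finset.prod_dvd_prod_of_subset _ _ _ (Finset.sdiff_subset_sdiff hT3 (subset_refl _))
      have e4 : pr A * pr (T \ D) * k = k * pr A * pr (T \ D) := by ring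
      rw [e4]
      exact Nat.mul_dvd_mul_left _ e3
  · rw [hPcard]
    exact h5

end Pool.Agent.L0h73.CN
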