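import Pool.Agent.L0h73.CN.ZeroSum
import Pool.Agent.L0h73.CN.Choose

/-!
From many primes `p` with `p - 1 ∣ M L` to a Carmichael number.
-/

set_option autoImplicit false

namespace Pool.Agent.L0h73.CN

open Finset

lemma totient_pr_ge (X : ℕ) (hX : 1 ≤ X) (T : Finset ℕ) (hT : ∀ p ∈ T, p.Prime ∧ X < p) :
    (1 - (T.card : ℝ) / X) * (pr T : ℝ) ≤ ((pr T).totient : ℝ) := by
  have hX0 : (0 : ℝ) < X := by exact_mod_cast hX
  induction T using Finset.induction_on with
  | empty => simp [pr]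
  | insert p T hp ih =>
    have hpp := hT p (mem_insert_self _ _)
    have hT' : ∀ q ∈ T, q.Prime ∧ X < q := fun q hq => hT q (mem_insert_of_mem hq)
    have h1 := ih hT'
    have e1 : pr (insert p T) = p * pr T := Finset.prod_insert hp
    have hcop : p.Coprime (pr T) := by
      apply Nat.Coprime.prod_right
      intro q hq
      rw [Nat.coprime_primes hpp.1 (hT' q hq).1]
      rintro rfl
      exact hp hq
    have e2 : (pr (insert p T)).totient = (p - 1) * (pr T).totient := by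
      rw [e1, Nat.totient_mul hcop, Nat.totient_prime hpp.1]
    rw [e2, e1, card_insert_of_notMem hp]
    have hp1 : ((p - 1 : ℕ) : ℝ) = p - 1 := by
      rw [Nat.cast_sub hpp.1.one_lt.le, Nat.cast_one]
    push_cast
    rw [hp1]
    have hpX : (X : ℝ) < p := by exact_mod_cast hpp.2
    have hp0 : (0 : ℝ) < p := hX0.trans hpX
    have h2 : (1 - 1 / (X : ℝ)) * p ≤ p - 1 := by
      have : 1 ≤ (p : ℝ) / X := by rw [le_div_iff₀ hX0]; linarith
      have e : (1 - 1 / (X : ℝ)) * p = p - p / X := by ring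
      rw [e]
      linarith
    have h3 : (0 : ℝ) ≤ ((pr T).totient : ℝ) := Nat.cast_nonneg _
    have hX1 : 0 ≤ 1 - 1 / (X : ℝ) := by
      rw [sub_nonneg, div_le_one hX0]
      exact_mod_cast hX
    have h4 : (1 - 1 / (X : ℝ)) * p * ((1 - (T.card : ℝ) / X) * (pr T : ℝ)) ≤
        (p - 1) * ((pr T).totient : ℝ) :=
      calc (1 - 1 / (X : ℝ)) * p * ((1 - (T.card : ℝ) / X) * (pr T : ℝ))
          ≤ (1 - 1 / (X : ℝ)) * p * ((pr T).totient : ℝ) :=
            mul_le_mul_of_nonneg_left h1 (by positivity)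
        _ ≤ _ := mul_le_mul_of_nonneg_right h2 h3
    refine le_trans ?_ h4
    have h5 : (1 - ((T.card : ℝ) + 1) / X) ≤ (1 - 1 / (X : ℝ)) * (1 - (T.card : ℝ) / X) := by
      have e : (1 - 1 / (X : ℝ)) * (1 - (T.card : ℝ) / X) =
          (1 - ((T.card : ℝ) + 1) / X) + (T.card : ℝ) / (X * X) := by
        field_simp
        ring
      rw [e]
      have : 0 ≤ (T.card : ℝ) / (X * X) := by positivity
      linarith
    have h6 : (0 : ℝ) ≤ p * (pr T : ℝ) := by positivity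
    calc (1 - ((T.card : ℝ) + 1) / X) * (p * (pr T : ℝ))
        ≤ (1 - 1 / (X : ℝ)) * (1 - (T.card : ℝ) / X) * (p * (pr T : ℝ)) :=
          mul_le_mul_of_nonneg_right h5 h6
      _ = _ := by ring

/-- the Fermat liars -/
def liars (n : ℕ) : ℕ := ((Finset.range n).filter (fun a => a ^ (n - 1) ≡ 1 [MOD n])).card

lemma totient_le_liars (T : Finset ℕ) (hT : ∀ p ∈ T, p.Prime) (h : ∀ p ∈ T, p - 1 ∣ pr T - 1) :
    (pr T).totient ≤ liars (pr T) := by
  unfold liars Nat.totient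
  apply Finset.card_le_card
  intro a ha
  rw [mem_filter] at ha ⊢
  exact ⟨ha.1, pow_modEq_one T hT (pr T - 1) h a ha.2.symm⟩

open Classical in
theorem carm (M : ℕ) (B : Finset ℕ) (hB : ∀ q ∈ B, q.Prime) (hcop : M.Coprime (pr B)) (X Y : ℕ)
    (P : Finset ℕ) (hP : ∀ p ∈ P, p.Prime ∧ X < p ∧ p ≤ Y ∧ M ∣ p - 1 ∧ p - 1 ∣ M * pr B)
    (hXB : ∀ q ∈ B, q ≤ X) (hbig : Y ≤ M * pr B) (m : ℕ) (hm : 0 < m) (hmB : ∀ q ∈ B, q - 1 ∣ m)
    (N : ℕ) (hN : N ≤ P.card) (hzs : ((pr B).totient : ℝ) * (1 - 1 / m) ^ N < 1) (hX : 1 ≤ X) :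
    ∃ n : ℕ, X < n ∧ ¬ n.Prime ∧ (1 - (N : ℝ) / X) * (n : ℝ) ≤ (liars n : ℝ) := by
  haveI : NeZero (pr B) := ⟨(pr_pos hB).ne'⟩
  obtain ⟨s, hsP, hs⟩ := Finset.exists_subset_card_eq hN
  have hpow : ∀ p ∈ P, p ^ m ≡ 1 [MOD pr B] := by
    intro p hp
    apply pow_modEq_one B hB m hmB
    apply Nat.Coprime.prod_right
    intro q hq
    rw [Nat.coprime_primes (hP p hp).1 (hB q hq)]
    rintro rfl
    have := hXB p hq
    have := (hP p hp).2.1
    omega
  obtain ⟨T, hTs, hTne, hT1⟩ := zero_sum (pr B) m hm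
    (fun i : ℕ => if i ∈ P then (i : ZMod (pr B)) else 1) (by
      intro i
      split_ifs with h
      · have := (ZMod.natCast_eq_natCast_iff (i ^ m) 1 (pr B)).2 (hpow i h)
        push_cast at this
        exact this
      · exact one_pow m) s (by rw [hs]; exact hzs)
  have hTP : T ⊆ P := hTs.trans hsP
  have hTp : ∀ p ∈ T, p.Prime := fun p hp => (hP p (hTP hp)).1
  have hmodB : pr T ≡ 1 [MOD pr B] := by
    rw [← ZMod.natCast_eq_natCast_iff, Nat.cast_one, ← hT1]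
    unfold pr
    rw [Nat.cast_prod]
    exact Finset.prod_congr rfl fun p hp => by rw [if_pos (hTP hp)]
  have hmodM : pr T ≡ 1 [MOD M] := by
    unfold pr
    have h1 : ∀ p ∈ T, p ≡ 1 [MOD M] := by
      intro p hp
      have h2 := hP p (hTP hp)
      exact ((Nat.modEq_iff_dvd' h2.1.one_lt.le).2 h2.2.2.2.1).symm
    clear hmodB hT1 hTne
    induction T using Finset.induction_on with
    | empty => simp [Nat.ModEq]
    | insert p T hp ih =>
      rw [prod_insert hp]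
      have h2 := ih ((subset_insert p T).trans hTs) ((subset_insert p T).trans hTP)
        (fun q hq => hTp q (mem_insert_of_mem hq)) (fun q hq => h1 q (mem_insert_of_mem hq))
      simpa using (h1 p (mem_insert_self _ _)).mul h2
  have hmod : pr T ≡ 1 [MOD M * pr B] := (Nat.modEq_and_modEq_iff_modEq_mul hcop).1 ⟨hmodM, hmodB⟩
  have hT0 : 1 ≤ pr T := pr_pos hTp
  have hdvd : M * pr B ∣ pr T - 1 := (Nat.modEq_iff_dvd' hT0).1 hmod.symm
  have hdvdp : ∀ p ∈ T, p - 1 ∣ pr T - 1 := fun p hp => (hP p (hTP hp)).2.2.2.2.trans hdvd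
  obtain ⟨p₀, hp₀⟩ := hTne
  have hp₀' := hP p₀ (hTP hp₀)
  have hp₀T : p₀ ∣ pr T := Finset.dvd_prod_of_mem _ hp₀
  refine ⟨pr T, lt_of_lt_of_le hp₀'.2.1 (Nat.le_of_dvd hT0 hp₀T), ?_, ?_⟩
  · intro hprime
    have h1 : p₀ = pr T := (Nat.prime_dvd_prime_iff_eq hp₀'.1 hprime).1 hp₀T
    rw [← h1] at hdvd
    have h2 : 0 < p₀ - 1 := by have := hp₀'.1.two_le; omega
    have h3 := Nat.le_of_dvd h2 hdvd
    have h4 := hp₀'.2.2.1
    omega
  · have h1 := totient_pr_ge X hX T (fun p hp => ⟨hTp p hp, (hP p (hTP hp)).2.1⟩)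
    have h2 : ((pr T).totient : ℝ) ≤ (liars (pr T) : ℝ) := by
      exact_mod_cast totient_le_liars T hTp hdvdp
    refine le_trans ?_ (h1.trans h2)
    have h3 : (T.card : ℝ) ≤ N := by
      rw [← hs]
      exact_mod_cast Finset.card_le_card hTs
    have hX0 : (0 : ℝ) < X := by exact_mod_cast hX
    have h4 : (T.card : ℝ) / X ≤ N / X := div_le_div_of_nonneg_right h3 hX0.le
    apply mul_le_mul_of_nonneg_right _ (Nat.cast_nonneg _)
    linarith

end Pool.Agent.L0h73.CN
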