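import Mathlib

/-!
The combinatorial part of the construction of Carmichael numbers with large prime factors.
-/

set_option autoImplicit false

namespace Pool.Agent.L0h73.CN

open Finset

/-- the product of the elements of a finite set of natural numbers -/
def pr (A : Finset ℕ) : ℕ := ∏ q ∈ A, q

lemma pr_pos {A : Finset ℕ} (hA : ∀ q ∈ A, q.Prime) : 0 < pr A :=
  Finset.prod_pos fun q hq => (hA q hq).pos

lemma pr_dvd {A : Finset ℕ} (hA : ∀ q ∈ A, q.Prime) {k : ℕ} : pr A ∣ k ↔ ∀ q ∈ A, q ∣ k := by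
  constructor
  · intro h q hq
    exact (Finset.dvd_prod_of_mem _ hq).trans h
  · intro h
    apply Finset.prod_primes_dvd
    · intro q hq
      exact (hA q hq).prime
    · exact h

lemma pr_union {A B : Finset ℕ} (h : Disjoint A B) : pr (A ∪ B) = pr A * pr B :=
  Finset.prod_union h

lemma pr_coprime {A B : Finset ℕ} (hA : ∀ q ∈ A, q.Prime) (hB : ∀ q ∈ B, q.Prime)
    (h : Disjoint A B) : (pr A).Coprime (pr B) := by
  apply Nat.Coprime.prod_left
  intro a ha
  apply Nat.Coprime.prod_right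
  intro b hb
  rw [Nat.coprime_primes (hA a ha) (hB b hb)]
  rintro rfl
  exact Finset.disjoint_left.1 h ha hb

lemma primeFactors_pr {A : Finset ℕ} (hA : ∀ q ∈ A, q.Prime) : (pr A).primeFactors = A :=
  Nat.primeFactors_prod hA

lemma pr_inj {A B : Finset ℕ} (hA : ∀ q ∈ A, q.Prime) (hB : ∀ q ∈ B, q.Prime)
    (h : pr A = pr B) : A = B := by
  rw [← primeFactors_pr hA, ← primeFactors_pr hB, h]

/-- Fermat's theorem for products of distinct primes. -/
lemma pow_modEq_one (B : Finset ℕ) (hB : ∀ q ∈ B, q.Prime) (m : ℕ) (hm : ∀ q ∈ B, q - 1 ∣ m)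
    (a : ℕ) (ha : a.Coprime (pr B)) : a ^ m ≡ 1 [MOD pr B] := by
  have h1 : ∀ q ∈ B, a ^ m ≡ 1 [MOD q] := by
    intro q hq
    have hcop : a.Coprime q := Nat.Coprime.coprime_dvd_right (Finset.dvd_prod_of_mem _ hq) ha
    have h2 := Nat.ModEq.pow_totient hcop
    rw [Nat.totient_prime (hB q hq)] at h2
    obtain ⟨j, hj⟩ := hm q hq
    rw [hj, pow_mul]
    simpa using h2.pow j
  have h2 : (pr B : ℤ) ∣ ((a ^ m : ℕ) : ℤ) - ((1 : ℕ) : ℤ) := by
    unfold pr
    rw [Nat.cast_prod]
    apply Finset.prod_dvd_of_coprime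
    · intro x hx y hy hxy
      have h3 : x.Coprime y := (Nat.coprime_primes (hB x hx) (hB y hy)).2 hxy
      exact Nat.isCoprime_iff_coprime.2 h3
    · intro q hq
      have h3 := (Nat.modEq_iff_dvd.1 (h1 q hq).symm)
      exact h3
  exact (Nat.modEq_iff_dvd.2 h2).symm

/-- `∏ (1 + 1/q)` over a set of integers in `[1, t]` is at most `t + 1`. -/
lemma prod_one_add_inv_le (A : Finset ℕ) (t : ℕ) (hA : A ⊆ Icc 1 t) :
    ∏ q ∈ A, (1 + 1 / (q : ℝ)) ≤ t + 1 := by
  have h1 : ∏ q ∈ A, (1 + 1 / (q : ℝ)) ≤ ∏ q ∈ Icc 1 t, (1 + 1 / (q : ℝ)) := by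
    rw [← Finset.prod_sdiff hA]
    have h2 : (1 : ℝ) ≤ ∏ q ∈ Icc 1 t \ A, (1 + 1 / (q : ℝ)) := by
      calc (1 : ℝ) = ∏ q ∈ Icc 1 t \ A, (1 : ℝ) := by simp
        _ ≤ _ := by
          apply Finset.prod_le_prod
          · intro q _
            norm_num
          · intro q _
            have : 0 ≤ 1 / (q : ℝ) := by positivity
            linarith
    have h3 : 0 ≤ ∏ q ∈ A, (1 + 1 / (q : ℝ)) := Finset.prod_nonneg fun q _ => by positivity
    nlinarith
  refine h1.trans (le_of_eq ?_)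
  clear h1 hA
  induction t with
  | zero => simp
  | succ t ih =>
    rw [← Finset.insert_Icc_right_eq_Icc_add_one (by omega), prod_insert (by simp), ih]
    push_cast
    field_simp

lemma centralBinom_ge (u : ℕ) : 2 ^ u ≤ u.centralBinom := by
  induction u with
  | zero => simp
  | succ n ih =>
    have h := Nat.succ_mul_centralBinom_succ n
    have h2 : (n + 1) * 2 ^ (n + 1) ≤ (n + 1) * (n + 1).centralBinom := by
      rw [h, pow_succ]
      calc (n + 1) * (2 ^ n * 2) ≤ 2 * (2 * n + 1) * 2 ^ n := by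
            have : (n + 1) * (2 ^ n * 2) = 2 * (n + 1) * 2 ^ n := by ring
            rw [this]
            apply Nat.mul_le_mul_right
            omega
        _ ≤ _ := Nat.mul_le_mul_left _ ih
    exact Nat.le_of_mul_le_mul_left h2 (by omega)

lemma choose_ge {n u : ℕ} (h : 2 * u ≤ n) : 2 ^ u ≤ n.choose u :=
  (centralBinom_ge u).trans (Nat.choose_le_choose u h)

end Pool.Agent.L0h73.CN
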