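import Mathlib

/-!
The choice of the parameters.
-/

set_option autoImplicit false

namespace Pool.Agent.L0h73.CN

open Finset Filter

lemma ev_rpow (A s : ℝ) (hs : 0 < s) : ∀ᶠ t : ℕ in atTop, A ≤ (t : ℝ) ^ s :=
  ((tendsto_rpow_atTop hs).comp tendsto_natCast_atTop_atTop).eventually_ge_atTop A

lemma ev_logpow (B : ℕ) (s : ℝ) (hs : 0 < s) :
    ∀ᶠ t : ℕ in atTop, Real.log t ^ B ≤ (t : ℝ) ^ s := by
  have h1 := isLittleO_log_rpow_rpow_atTop (s := s) (B : ℝ) hs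
  have h2 := h1.bound one_pos
  have h3 := (tendsto_natCast_atTop_atTop (R := ℝ)).eventually h2
  filter_upwards [h3] with t ht
  rw [Real.rpow_natCast, one_mul, Real.norm_eq_abs, Real.norm_eq_abs,
    abs_of_nonneg (by positivity : (0 : ℝ) ≤ (t : ℝ) ^ s)] at ht
  exact (le_abs_self _).trans ht

lemma ev_mul_rpow (A a b : ℝ) (hab : a < b) : ∀ᶠ t : ℕ in atTop, A * (t : ℝ) ^ a ≤ (t : ℝ) ^ b := by
  filter_upwards [ev_rpow A (b - a) (by linarith), eventually_ge_atTop 1] with t ht ht1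
  have ht0 : (0 : ℝ) < t := by exact_mod_cast ht1
  calc A * (t : ℝ) ^ a ≤ (t : ℝ) ^ (b - a) * (t : ℝ) ^ a :=
        mul_le_mul_of_nonneg_right ht (by positivity)
    _ = (t : ℝ) ^ b := by rw [← Real.rpow_add ht0]; ring_nf

lemma ev_mul_log (A s : ℝ) (hs : 0 < s) : ∀ᶠ t : ℕ in atTop, A * Real.log t ≤ (t : ℝ) ^ s := by
  filter_upwards [ev_rpow A (s / 2) (by linarith), ev_logpow 1 (s / 2) (by linarith),
    eventually_ge_atTop 1] with t h1 h2 ht1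
  have ht0 : (0 : ℝ) < t := by exact_mod_cast ht1
  have hl : 0 ≤ Real.log t := Real.log_nonneg (by exact_mod_cast ht1)
  rw [pow_one] at h2
  calc A * Real.log t ≤ (t : ℝ) ^ (s / 2) * Real.log t := mul_le_mul_of_nonneg_right h1 hl
    _ ≤ (t : ℝ) ^ (s / 2) * (t : ℝ) ^ (s / 2) := mul_le_mul_of_nonneg_left h2 (by positivity)
    _ = (t : ℝ) ^ s := by rw [← Real.rpow_add ht0]; ring_nf

theorem params (κ : ℝ) (hκ0 : 0 < κ) (hκ4 : κ ≤ 1 / 4) (K : ℕ) (R : ℝ) (V : ℕ) :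
    ∀ᶠ t : ℕ in atTop, ∀ w : ℕ, (w : ℝ) ≤ (t : ℝ) ^ (1 - κ) → ∃ v u l : ℕ,
      t < 2 ^ l ∧ 16 * (l * u) ≤ v ∧ R * (t : ℝ) ^ 4 * 2 ^ (w * l ^ 2) ≤ 2 ^ u ∧
      ((K : ℝ) + 4) * v + 4 ≤ t / (4 * Real.log t) ∧ V ≤ v := by
  have hs : 0 < κ / 16 := by positivity
  filter_upwards [ev_mul_log 4 (κ / 16) hs, ev_rpow 2 (κ / 16) hs,
    ev_rpow (V + 1) (1 - κ / 2) (by linarith),
    ev_mul_rpow (4 * (K + 8)) (1 - κ / 2 + κ / 16) 1 (by linarith),
    ev_mul_rpow 128 (1 - 13 * κ / 16) (1 - κ / 2) (by linarith),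
    ev_mul_rpow (128 * (|R| + 4)) (κ / 16) (1 - κ / 2) (by linarith),
    ev_mul_rpow 512 (κ / 8) (1 - κ / 2) (by linarith),
    eventually_ge_atTop 3] with t h1 h2 h3 h4 h5 h6 h7 h8 w hw
  have ht3 : (3 : ℝ) ≤ t := by exact_mod_cast h8
  have ht0 : (0 : ℝ) < t := by linarith
  have hlog1 : 1 ≤ Real.log t := by
    rw [Real.le_log_iff_exp_le ht0]
    have := Real.exp_one_lt_d9
    linarith
  obtain ⟨l, hl⟩ : ∃ l : ℕ, l = Nat.log 2 t + 1 := ⟨_, rfl⟩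
  obtain ⟨v, hv⟩ : ∃ v : ℕ, v = ⌊(t : ℝ) ^ (1 - κ / 2)⌋₊ := ⟨_, rfl⟩
  have hlt : t < 2 ^ l := by rw [hl]; exact Nat.lt_pow_succ_log_self (by norm_num) t
  have hl0 : 1 ≤ l := by omega
  have hl0' : (1 : ℝ) ≤ l := by exact_mod_cast hl0
  set y : ℝ := (t : ℝ) ^ (κ / 16) with hy
  have hy0 : 0 < y := by positivity
  have hly : (l : ℝ) ≤ y := by
    have e1 : ((2 : ℝ) ^ (Nat.log 2 t)) ≤ t := by
      exact_mod_cast Nat.pow_log_le_self 2 (by omega)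
    have e2 := Real.log_le_log (by positivity) e1
    rw [Real.log_pow] at e2
    have e3 := Real.log_two_gt_d9
    have e4 : (0 : ℝ) ≤ (Nat.log 2 t : ℕ) := Nat.cast_nonneg _
    have e5 : ((Nat.log 2 t : ℕ) : ℝ) ≤ 2 * Real.log t := by nlinarith
    rw [hl]
    push_cast
    linarith
  set F : ℝ := (t : ℝ) ^ (1 - κ / 2) with hF
  have hF0 : 0 < F := by positivity
  have hvF : (v : ℝ) ≤ F := by rw [hv]; exact Nat.floor_le hF0.le
  have hvF2 : F < v + 1 := by rw [hv]; exact Nat.lt_floor_add_one _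
  refine ⟨v, v / (16 * l), l, hlt, ?_, ?_, ?_, ?_⟩
  · have := Nat.mul_div_le v (16 * l)
    calc 16 * (l * (v / (16 * l))) = 16 * l * (v / (16 * l)) := by ring
      _ ≤ v := this
  · obtain ⟨u, hu⟩ : ∃ u : ℕ, u = v / (16 * l) := ⟨_, rfl⟩
    rw [← hu]
    obtain ⟨ρ, hρ⟩ : ∃ ρ : ℕ, ρ = ⌈|R|⌉₊ := ⟨_, rfl⟩
    have hρ1 : |R| ≤ ρ := by rw [hρ]; exact Nat.le_ceil _
    have hρ2 : (ρ : ℝ) < |R| + 1 := by rw [hρ]; exact Nat.ceil_lt_add_one (abs_nonneg _)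
    have hu1 : v < 16 * l * (u + 1) := by
      rw [hu, mul_comm]
      exact Nat.lt_mul_of_div_lt (Nat.lt_succ_self _) (by omega)
    have hu2 : (v : ℝ) + 1 ≤ 16 * l * (u + 1) := by exact_mod_cast hu1
    -- the exponents
    have hkey : w * l ^ 2 + ρ + 4 * l ≤ u := by
      by_contra hcon
      push Not at hcon
      have hcon' : (u : ℝ) + 1 ≤ w * l ^ 2 + ρ + 4 * l := by exact_mod_cast hcon
      have e1 : F ≤ 16 * l * (w * l ^ 2 + ρ + 4 * l) := by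
        calc F ≤ v + 1 := hvF2.le
          _ ≤ 16 * l * (u + 1) := hu2
          _ ≤ _ := mul_le_mul_of_nonneg_left hcon' (by positivity)
      have e2 : 16 * l * (w * l ^ 2 + ρ + 4 * l) ≤
          16 * y * ((t : ℝ) ^ (1 - κ) * y ^ 2 + (|R| + 1) + 4 * y) := by
        have : (0 : ℝ) ≤ w := Nat.cast_nonneg _
        gcongr
      have e3 : y * ((t : ℝ) ^ (1 - κ) * y ^ 2) = (t : ℝ) ^ (1 - 13 * κ / 16) := by
        rw [hy, ← Real.rpow_natCast, ← Real.rpow_mul ht0.le, ← Real.rpow_add ht0, ← Real.rpow_add ht0]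
        congr 1
        push_cast
        ring
      have e4 : y * y = (t : ℝ) ^ (κ / 8) := by
        rw [hy, ← Real.rpow_add ht0]
        congr 1
        ring
      have e5 : 16 * y * ((t : ℝ) ^ (1 - κ) * y ^ 2 + (|R| + 1) + 4 * y) =
          16 * (y * ((t : ℝ) ^ (1 - κ) * y ^ 2)) + 16 * (|R| + 1) * y + 64 * (y * y) := by ring
      rw [e5, e3, e4] at e2
      have e6 : 16 * (|R| + 1) * y ≤ F / 8 := by
        have : (0 : ℝ) ≤ |R| := abs_nonneg _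
        nlinarith
      nlinarith
    have hR2 : R ≤ 2 ^ ρ := by
      have e1 : (ρ : ℝ) ≤ 2 ^ ρ := by exact_mod_cast (Nat.lt_two_pow_self (n := ρ)).le
      exact (le_abs_self R).trans (hρ1.trans e1)
    have ht4 : (t : ℝ) ^ 4 ≤ 2 ^ (4 * l) := by
      have e1 : (t : ℝ) ≤ 2 ^ l := by exact_mod_cast hlt.le
      calc (t : ℝ) ^ 4 ≤ (2 ^ l) ^ 4 := pow_le_pow_left₀ ht0.le e1 4
        _ = 2 ^ (4 * l) := by rw [← pow_mul, mul_comm]
    calc R * (t : ℝ) ^ 4 * 2 ^ (w * l ^ 2) ≤ 2 ^ ρ * 2 ^ (4 * l) * 2 ^ (w * l ^ 2) := by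
          gcongr
      _ = 2 ^ (w * l ^ 2 + ρ + 4 * l) := by rw [← pow_add, ← pow_add]; congr 1; ring
      _ ≤ 2 ^ u := pow_le_pow_right₀ (by norm_num) hkey
  · rw [le_div_iff₀ (by positivity)]
    have e1 : 4 * Real.log t ≤ y := h1
    have e2 : (((K : ℝ) + 4) * v + 4) * (4 * Real.log t) ≤ (((K : ℝ) + 4) * F + 4 * F) * y := by
      have hF1 : 1 ≤ F := by
        rw [hF]
        apply Real.one_le_rpow (by linarith) (by linarith)
      apply mul_le_mul _ e1 (by positivity) (by positivity)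
      have : ((K : ℝ) + 4) * v ≤ ((K : ℝ) + 4) * F := mul_le_mul_of_nonneg_left hvF (by positivity)
      linarith
    have e3 : F * y = (t : ℝ) ^ (1 - κ / 2 + κ / 16) := by
      rw [hF, hy, ← Real.rpow_add ht0]
    have e4 : (((K : ℝ) + 4) * F + 4 * F) * y = (K + 8) * (F * y) := by ring
    rw [e4, e3] at e2
    rw [Real.rpow_one] at h4
    have e5 : (0 : ℝ) ≤ (K + 8) * (t : ℝ) ^ (1 - κ / 2 + κ / 16) := by positivity
    linarith
  · have e1 : (V : ℝ) + 1 < v + 1 := lt_of_le_of_lt h3 hvF2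
    have e2 : (V : ℝ) < v := by linarith
    exact_mod_cast e2.le

end Pool.Agent.L0h73.CN
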