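import Pool.Agent.TH76.LehP.Range

/-!
A positive proportion of the primes `q ≤ t` is such that all prime factors of `q - 1` are at most
`t ^ (1 - κ)`.
-/

set_option autoImplicit false

namespace Pool.Agent.L0h73.CN

open Finset Filter Pool.Agent.TH76.LehP

/-- the primes `q ≤ t` such that all the prime factors of `q - 1` are at most `w` -/
def SP (t w : ℕ) : Finset ℕ :=
  (PP t).filter (fun q => ∀ r ∈ Icc 1 t, r.Prime → r ∣ q - 1 → r ≤ w)

lemma mem_SP {t w q : ℕ} : q ∈ SP t w ↔ q ≤ t ∧ q.Prime ∧ ∀ r : ℕ, r.Prime → r ∣ q - 1 → r ≤ w := by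
  unfold SP
  rw [mem_filter, mem_PP]
  constructor
  · rintro ⟨⟨h1, h2⟩, h3⟩
    refine ⟨h1, h2, fun r hr hrq => ?_⟩
    apply h3 r _ hr hrq
    rw [mem_Icc]
    have h4 : 0 < q - 1 := by have := h2.two_le; omega
    exact ⟨hr.pos, (Nat.le_of_dvd h4 hrq).trans (by omega)⟩
  · rintro ⟨h1, h2, h3⟩
    exact ⟨⟨h1, h2⟩, fun r _ hr hrq => h3 r hr hrq⟩

theorem smooth_primes : ∃ κ : ℝ, 0 < κ ∧ κ ≤ 1 / 4 ∧ ∃ T : ℕ, ∀ t : ℕ, T ≤ t → ∃ w : ℕ,
    (w : ℝ) ≤ (t : ℝ) ^ (1 - κ) ∧ (t : ℝ) / (4 * Real.log t) ≤ ((SP t w).card : ℝ) := by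
  obtain ⟨C, hC, hfar⟩ := far_part
  obtain ⟨T1, hT1⟩ := cheb_lower
  obtain ⟨κ, hκ⟩ : ∃ κ : ℝ, κ = min (1 / 4) (1 / (16 * C)) := ⟨_, rfl⟩
  have hκ0 : 0 < κ := by rw [hκ]; positivity
  have hκ4 : κ ≤ 1 / 4 := by rw [hκ]; exact min_le_left _ _
  have hκC : 16 * C * κ ≤ 1 := by
    have h1 : κ ≤ 1 / (16 * C) := by rw [hκ]; exact min_le_right _ _
    calc 16 * C * κ ≤ 16 * C * (1 / (16 * C)) := mul_le_mul_of_nonneg_left h1 (by positivity)
      _ = 1 := by field_simp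
  have hlogt : Tendsto (fun t : ℕ => Real.log (t : ℝ)) atTop atTop :=
    Real.tendsto_log_atTop.comp tendsto_natCast_atTop_atTop
  obtain ⟨T2, hT2⟩ := eventually_atTop.1 (hlogt.eventually_ge_atTop (1 / κ))
  refine ⟨κ, hκ0, hκ4, max (max T1 T2) 65536, fun t ht => ?_⟩
  have ht1 : T1 ≤ t := (le_max_left _ _).trans ((le_max_left _ _).trans ht)
  have ht2 : T2 ≤ t := (le_max_right _ _).trans ((le_max_left _ _).trans ht)
  have ht3 : 65536 ≤ t := (le_max_right _ _).trans ht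
  have ht3' : (65536 : ℝ) ≤ t := by exact_mod_cast ht3
  have ht0 : (0 : ℝ) < t := by linarith
  have hL : 1 / κ ≤ Real.log t := hT2 t ht2
  have hL0 : 0 < Real.log t := lt_of_lt_of_le (by positivity) hL
  have hpow1 : (4 : ℝ) ≤ (t : ℝ) ^ (1 - κ) := by
    calc (4 : ℝ) = (65536 : ℝ) ^ (1 / 8 : ℝ) := by
          rw [show (65536 : ℝ) = 4 ^ (8 : ℝ) by norm_num, ← Real.rpow_mul (by norm_num)]
          norm_num
      _ ≤ (t : ℝ) ^ (1 / 8 : ℝ) := Real.rpow_le_rpow (by norm_num) ht3' (by norm_num)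
      _ ≤ _ := Real.rpow_le_rpow_of_exponent_le (by linarith) (by linarith)
  refine ⟨⌊(t : ℝ) ^ (1 - κ)⌋₊, Nat.floor_le (by positivity), ?_⟩
  obtain ⟨w, hw⟩ : ∃ w : ℕ, w = ⌊(t : ℝ) ^ (1 - κ)⌋₊ := ⟨_, rfl⟩
  rw [← hw]
  have hw1 : (t : ℝ) ^ (1 - κ) < w + 1 := by rw [hw]; exact Nat.lt_floor_add_one _
  have hw2 : (t : ℝ) ^ (1 - κ) ≤ 2 * (w : ℝ) := by linarith
  have hwt : w ≤ t := by
    have h1 : (w : ℝ) ≤ (t : ℝ) ^ (1 - κ) := by rw [hw]; exact Nat.floor_le (by positivity)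
    have h2 : (t : ℝ) ^ (1 - κ) ≤ (t : ℝ) ^ (1 : ℝ) :=
      Real.rpow_le_rpow_of_exponent_le (by linarith) (by linarith)
    rw [Real.rpow_one] at h2
    exact_mod_cast h1.trans h2
  have hf := hfar κ hκ0 hκ4 t w (by omega) hwt hw2
  have hlogw : (1 / 2) * Real.log t ≤ Real.log w := by
    rw [← Real.log_rpow ht0]
    apply Real.log_le_log (by positivity)
    have h1 : (t : ℝ) ^ (3 / 4 : ℝ) ≤ (t : ℝ) ^ (1 - κ) :=
      Real.rpow_le_rpow_of_exponent_le (by linarith) (by linarith)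
    have h2 : (t : ℝ) ^ (3 / 4 : ℝ) = (t : ℝ) ^ (1 / 4 : ℝ) * (t : ℝ) ^ (1 / 2 : ℝ) := by
      rw [← Real.rpow_add ht0]; norm_num
    have h3 : (2 : ℝ) ≤ (t : ℝ) ^ (1 / 4 : ℝ) := by
      calc (2 : ℝ) ≤ (65536 : ℝ) ^ (1 / 4 : ℝ) := by
            rw [show (65536 : ℝ) = 16 ^ (4 : ℝ) by norm_num, ← Real.rpow_mul (by norm_num)]
            norm_num
        _ ≤ _ := Real.rpow_le_rpow (by norm_num) ht3' (by norm_num)
    have h4 : 0 < (t : ℝ) ^ (1 / 2 : ℝ) := by positivity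
    nlinarith
  -- the bad primes
  have hbad : ((PP t \ SP t w).card : ℝ) ≤
      ∑ q ∈ (Ioc w t).filter (fun q => q.Prime), ((P1 t q).card : ℝ) := by
    have hsub : PP t \ SP t w ⊆ ((Ioc w t).filter (fun q => q.Prime)).biUnion (fun q => P1 t q) := by
      intro p hp
      rw [Finset.mem_sdiff, mem_PP, mem_SP] at hp
      obtain ⟨⟨hp1, hp2⟩, hp3⟩ := hp
      have h1 : ∃ r : ℕ, r.Prime ∧ r ∣ p - 1 ∧ w < r := by
        by_contra hcon
        push Not at hcon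
        exact hp3 ⟨hp1, hp2, hcon⟩
      obtain ⟨r, hr1, hr2, hr3⟩ := h1
      rw [mem_biUnion]
      have h4 : 0 < p - 1 := by have := hp2.two_le; omega
      refine ⟨r, ?_, ?_⟩
      · rw [mem_filter, mem_Ioc]
        exact ⟨⟨hr3, (Nat.le_of_dvd h4 hr2).trans (by omega)⟩, hr1⟩
      · rw [mem_P1]
        exact ⟨hp1, hp2, hr2⟩
    have h1 := (Finset.card_le_card hsub).trans Finset.card_biUnion_le
    exact_mod_cast h1
  have h1 : (1 / 2) * Real.log t * ∑ q ∈ (Ioc w t).filter (fun q => q.Prime), ((P1 t q).card : ℝ) ≤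
      C * (κ * t + t / Real.log t) := by
    refine le_trans ?_ hf
    rw [Finset.mul_sum]
    apply Finset.sum_le_sum
    intro q hq
    rw [mem_filter, mem_Ioc] at hq
    apply mul_le_mul_of_nonneg_right _ (Nat.cast_nonneg _)
    refine hlogw.trans (Real.log_le_log ?_ ?_)
    · have : (0 : ℝ) < w := by
        have : 2 < (w : ℝ) + 1 := by linarith
        linarith
      exact this
    · exact_mod_cast hq.1.1.le
  have h2 : t / Real.log t ≤ κ * t := by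
    rw [div_le_iff₀ hL0]
    have : 1 ≤ κ * Real.log t := by
      rw [div_le_iff₀ hκ0] at hL
      linarith
    nlinarith
  have h3 : ((PP t \ SP t w).card : ℝ) * Real.log t ≤ (1 / 4) * t := by
    have h4 : (1 / 2) * Real.log t * ((PP t \ SP t w).card : ℝ) ≤ C * (κ * t + t / Real.log t) :=
      (mul_le_mul_of_nonneg_left hbad (by positivity)).trans h1
    have h5 : C * (κ * t + t / Real.log t) ≤ 2 * C * κ * t := by nlinarith
    have h6 : 16 * C * κ * t ≤ 1 * t := mul_le_mul_of_nonneg_right hκC ht0.le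
    nlinarith
  have h4 := hT1 t ht1
  have h5 : ((PP t).card : ℝ) = (PP t \ SP t w).card + (SP t w).card := by
    have h6 : SP t w ⊆ PP t := filter_subset _ _
    exact_mod_cast (Finset.card_sdiff_add_card_eq_card h6).symm
  rw [h5] at h4
  rw [div_le_iff₀ (by positivity)]
  nlinarith

end Pool.Agent.L0h73.CN
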