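import Pool.Agent.Y835.SC.Page
import Pool.Agent.L0h73.CN.Smooth
import Pool.Agent.L0h73.CN.Carm
import Pool.Agent.L0h73.CN.Params

/-!
Composite numbers almost all of whose residues are Fermat liars.
-/

set_option autoImplicit false

namespace Pool.Agent.L0h73.CN

open Finset Filter

lemma dvd_fact_pow {n w l : ℕ} (hn : 0 < n) (hl : n < 2 ^ l)
    (hw : ∀ r : ℕ, r.Prime → r ∣ n → r ≤ w) : n ∣ w.factorial ^ l := by
  rw [← Nat.factorization_le_iff_dvd hn.ne' (pow_ne_zero _ (Nat.factorial_ne_zero w))]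
  intro p
  rw [Nat.factorization_pow, Finsupp.smul_apply, smul_eq_mul]
  by_cases hp : p ∈ n.primeFactors
  · have hp1 : p.Prime := Nat.prime_of_mem_primeFactors hp
    have hp2 : p ∣ n := Nat.dvd_of_mem_primeFactors hp
    have h1 : 1 ≤ w.factorial.factorization p := by
      rw [← hp1.dvd_iff_one_le_factorization (Nat.factorial_ne_zero w)]
      exact (hp1.dvd_factorial).2 (hw p hp1 hp2)
    have h2 : n.factorization p ≤ l := by
      by_contra hcon
      push Not at hcon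
      have h3 : p ^ n.factorization p ∣ n := Nat.ordProj_dvd n p
      have h4 := Nat.le_of_dvd hn h3
      have h5 : 2 ^ l ≤ p ^ n.factorization p :=
        (Nat.pow_le_pow_left hp1.two_le l).trans (Nat.pow_le_pow_right hp1.pos hcon.le)
      omega
    nlinarith
  · rw [Finsupp.notMem_support_iff.1 (by rwa [Nat.support_factorization])]
    exact Nat.zero_le _

lemma fact_pow_le {w l t : ℕ} (hwt : w ≤ t) (ht : t < 2 ^ l) : w.factorial ^ l ≤ 2 ^ (w * l ^ 2) := by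
  calc w.factorial ^ l ≤ (w ^ w) ^ l := Nat.pow_le_pow_left (Nat.factorial_le_pow w) l
    _ ≤ ((2 ^ l) ^ w) ^ l := Nat.pow_le_pow_left (Nat.pow_le_pow_left (by omega) w) l
    _ = 2 ^ (w * l ^ 2) := by rw [← pow_mul, ← pow_mul]; congr 1; ring

lemma zs_bound {t m : ℕ} (ht : 1 ≤ t) (hm : 0 < m) (φ : ℝ) (hφ : φ ≤ (t : ℝ) ^ t) :
    φ * (1 - 1 / (m : ℝ)) ^ (m * t ^ 2) < 1 := by
  have hm0 : (0 : ℝ) < m := by exact_mod_cast hm
  have hm1 : (1 : ℝ) ≤ m := by exact_mod_cast hm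
  have ht0 : (0 : ℝ) < t := by exact_mod_cast ht
  have h0 : 0 ≤ 1 - 1 / (m : ℝ) := by
    rw [sub_nonneg, div_le_one hm0]; exact hm1
  have h1 : (1 - 1 / (m : ℝ)) ^ (m * t ^ 2) ≤ Real.exp (-(t : ℝ) ^ 2) := by
    have h2 : 1 - 1 / (m : ℝ) ≤ Real.exp (-(1 / (m : ℝ))) := by
      have := Real.add_one_le_exp (-(1 / (m : ℝ)))
      linarith
    calc (1 - 1 / (m : ℝ)) ^ (m * t ^ 2) ≤ (Real.exp (-(1 / (m : ℝ)))) ^ (m * t ^ 2) :=
          pow_le_pow_left₀ h0 h2 _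
      _ = Real.exp (-(t : ℝ) ^ 2) := by
          rw [← Real.exp_nat_mul]
          congr 1
          push_cast
          field_simp
  have h3 : (t : ℝ) ^ t = Real.exp (t * Real.log t) := by
    rw [mul_comm, Real.exp_mul, Real.exp_log ht0, Real.rpow_natCast]
  have h4 : Real.log t < t := by
    have := Real.log_le_sub_one_of_pos ht0
    linarith
  calc φ * (1 - 1 / (m : ℝ)) ^ (m * t ^ 2) ≤ (t : ℝ) ^ t * (1 - 1 / (m : ℝ)) ^ (m * t ^ 2) :=
        mul_le_mul_of_nonneg_right hφ (pow_nonneg h0 _)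
    _ ≤ (t : ℝ) ^ t * Real.exp (-(t : ℝ) ^ 2) := mul_le_mul_of_nonneg_left h1 (by positivity)
    _ = Real.exp (t * Real.log t - (t : ℝ) ^ 2) := by rw [h3, ← Real.exp_add]; rfl
    _ < 1 := by
      rw [Real.exp_lt_one_iff]
      nlinarith

theorem main (ε : ℝ) (hε : 0 < ε) (N₀ : ℕ) : ∃ n : ℕ, N₀ < n ∧ 1 < n ∧ ¬ n.Prime ∧
    (1 - ε) * (n : ℝ) < (liars n : ℝ) := by
  obtain ⟨κ, hκ0, hκ4, T₀, hT₀⟩ := smooth_primes
  obtain ⟨K, c, hK, hc, z0, hpage⟩ := Pool.Agent.Y835.SC.page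
  obtain ⟨R, hR⟩ : ∃ R : ℝ, R = max 1 (max (4 * K / c) (2 / ε)) := ⟨_, rfl⟩
  have hR1 : 1 ≤ R := by rw [hR]; exact le_max_left _ _
  have hR2 : 4 * K / c ≤ R := by rw [hR]; exact (le_max_left _ _).trans (le_max_right _ _)
  have hR3 : 2 / ε ≤ R := by rw [hR]; exact (le_max_right _ _).trans (le_max_right _ _)
  obtain ⟨t, ht⟩ := ((params κ hκ0 hκ4 K R (N₀ + z0 + 1)).and
    ((eventually_ge_atTop T₀).and (eventually_ge_atTop 3))).exists
  obtain ⟨hpar, htT, ht3⟩ := ht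
  obtain ⟨w, hw, hSP⟩ := hT₀ t htT
  obtain ⟨v, u, l, htl, hluv, hbig, hvt, hVv⟩ := hpar w hw
  have ht0 : (3 : ℝ) ≤ t := by exact_mod_cast ht3
  have ht1 : (1 : ℝ) ≤ t := by linarith
  have hK1 : (1 : ℝ) ≤ K := by exact_mod_cast hK
  have hl0 : 1 ≤ l := by
    rcases Nat.eq_zero_or_pos l with h | h
    · subst h; simp at htl; omega
    · exact h
  have huv : u ≤ v := by nlinarith
  have hwt : w ≤ t := by
    have h2 : (t : ℝ) ^ (1 - κ) ≤ (t : ℝ) ^ (1 : ℝ) :=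
      Real.rpow_le_rpow_of_exponent_le ht1 (by linarith)
    rw [Real.rpow_one] at h2
    exact_mod_cast hw.trans h2
  obtain ⟨X, hX⟩ : ∃ X : ℕ, X = 2 ^ v := ⟨_, rfl⟩
  have hX1 : 1 ≤ X := by rw [hX]; exact Nat.one_le_two_pow
  have hvX : v < X := by rw [hX]; exact Nat.lt_two_pow_self
  obtain ⟨Y, hY⟩ : ∃ Y : ℕ, Y = X ^ K := ⟨_, rfl⟩
  have hY1 : 1 ≤ Y := by rw [hY]; exact Nat.one_le_pow _ _ hX1
  -- `t ≤ X`
  have h2wl : (1 : ℝ) ≤ 2 ^ (w * l ^ 2) := one_le_pow₀ (by norm_num)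
  have h2uX : (2 : ℝ) ^ u ≤ X := by
    rw [hX]
    push_cast
    exact pow_le_pow_right₀ (by norm_num) huv
  have htX : t ≤ X := by
    have h1 : (t : ℝ) ≤ R * (t : ℝ) ^ 4 * 2 ^ (w * l ^ 2) := by
      have h3 : (t : ℝ) ≤ (t : ℝ) ^ 4 := by
        calc (t : ℝ) = (t : ℝ) ^ 1 := (pow_one _).symm
          _ ≤ (t : ℝ) ^ 4 := pow_le_pow_right₀ ht1 (by norm_num)
      calc (t : ℝ) ≤ (t : ℝ) ^ 4 := h3
        _ ≤ R * (t : ℝ) ^ 4 := le_mul_of_one_le_left (by positivity) hR1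
        _ ≤ _ := le_mul_of_one_le_right (by positivity) h2wl
    exact_mod_cast h1.trans (hbig.trans h2uX)
  -- the exceptional modulus
  obtain ⟨q₁, hq₁, hpg⟩ := hpage X (by omega)
  obtain ⟨r, hr⟩ : ∃ r : ℕ, r = q₁.minFac := ⟨_, rfl⟩
  have hrp : r.Prime := by rw [hr]; exact Nat.minFac_prime (by omega)
  have hrq : r ∣ q₁ := by rw [hr]; exact Nat.minFac_dvd q₁
  obtain ⟨Q, hQ⟩ : ∃ Q : Finset ℕ, Q = (SP t w).erase r := ⟨_, rfl⟩
  have hQS : Q ⊆ SP t w := by rw [hQ]; exact erase_subset _ _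
  have hQp : ∀ q ∈ Q, q.Prime := fun q hq => (mem_SP.1 (hQS hq)).2.1
  have hQt : ∀ q ∈ Q, q ≤ t := fun q hq => (mem_SP.1 (hQS hq)).1
  have hQI : Q ⊆ Icc 1 t := fun q hq => mem_Icc.2 ⟨(hQp q hq).pos, hQt q hq⟩
  have hQcard : ((K : ℝ) + 4) * v + 3 ≤ Q.card := by
    have h1 : (SP t w).card - 1 ≤ Q.card := by rw [hQ]; exact pred_card_le_card_erase
    have h2 : ((SP t w).card : ℝ) ≤ Q.card + 1 := by
      have : (SP t w).card ≤ Q.card + 1 := by omega
      exact_mod_cast this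
    linarith
  have hQcard' : (K + 4) * v + 3 ≤ Q.card := by exact_mod_cast hQcard
  have hprle : ∀ T : Finset ℕ, T ⊆ Q → pr T ≤ t ^ T.card := by
    intro T hT
    unfold pr
    exact Finset.prod_le_pow_card _ _ _ fun q hq => hQt q (hT hq)
  obtain ⟨M, B, hBQ, hM0, hcop, hMB, P, hP, hPc⟩ := choose_k Q t hQp hQI X Y u hX1 hY1 c hc (by
    intro T hT
    rw [mem_powersetCard] at hT
    rw [hY]
    apply hpg (pr T) 1 (pr_pos fun q hq => hQp q (hT.1 hq))
    · have h1 := hprle T hT.1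
      rw [hT.2] at h1
      calc pr T ^ 16 ≤ (t ^ u) ^ 16 := Nat.pow_le_pow_left h1 16
        _ ≤ ((2 ^ l) ^ u) ^ 16 := Nat.pow_le_pow_left (Nat.pow_le_pow_left htl.le u) 16
        _ = 2 ^ (16 * (l * u)) := by rw [← pow_mul, ← pow_mul]; congr 1; ring
        _ ≤ 2 ^ v := Nat.pow_le_pow_right (by norm_num) hluv
        _ = X := hX.symm
    · intro h1
      have h2 : r ∣ pr T := hrq.trans h1
      unfold pr at h2
      obtain ⟨q, hq, h3⟩ := (hrp.prime.dvd_finsetProd_iff _).1 h2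
      have h4 : r = q := (Nat.prime_dvd_prime_iff_eq hrp (hQp q (hT.1 hq))).1 h3
      have h5 := hT.1 hq
      rw [← h4, hQ] at h5
      exact Finset.notMem_erase r _ h5
    · exact Nat.coprime_one_left _)
  have hBp : ∀ q ∈ B, q.Prime := fun q hq => hQp q (hBQ hq)
  obtain ⟨m, hm⟩ : ∃ m : ℕ, m = w.factorial ^ l := ⟨_, rfl⟩
  have hm0 : 0 < m := by rw [hm]; exact pow_pos (Nat.factorial_pos w) l
  have hm2 : (m : ℝ) ≤ 2 ^ (w * l ^ 2) := by
    rw [hm]
    exact_mod_cast fact_pow_le hwt htl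
  have hmt : (m : ℝ) * (t : ℝ) ^ 2 ≤ (t : ℝ) ^ 2 * 2 ^ (w * l ^ 2) := by
    rw [mul_comm]
    exact mul_le_mul_of_nonneg_left hm2 (by positivity)
  -- there are at least `m t ^ 2` primes
  have hPN : m * t ^ 2 ≤ P.card := by
    have h1 : (2 : ℝ) ^ u ≤ (Q.card.choose u : ℝ) := by
      have : 2 ^ u ≤ Q.card.choose u := choose_ge (by nlinarith)
      exact_mod_cast this
    have hlogY : Real.log Y ≤ K * t := by
      rw [hY, hX]
      push_cast
      rw [← pow_mul, Real.log_pow]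
      have h3 := Real.log_two_lt_d9
      have h4 : (v : ℝ) ≤ t := by
        have h5 : (t : ℝ) / (4 * Real.log t) ≤ t := by
          apply div_le_self (by positivity)
          have : 1 ≤ Real.log t := by
            rw [Real.le_log_iff_exp_le (by linarith)]
            have := Real.exp_one_lt_d9
            linarith
          linarith
        have h6 : (0 : ℝ) ≤ v := Nat.cast_nonneg _
        nlinarith
      push_cast
      have h5 : (0 : ℝ) ≤ v := Nat.cast_nonneg _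
      have h6 : (0 : ℝ) ≤ Real.log 2 := Real.log_nonneg (by norm_num)
      calc (v : ℝ) * K * Real.log 2 ≤ v * K * 1 :=
            mul_le_mul_of_nonneg_left (by linarith) (by positivity)
        _ = K * v := by ring
        _ ≤ K * t := mul_le_mul_of_nonneg_left h4 (by positivity)
    have hW : ((t : ℝ) + 1) * (1 + Real.log Y) ≤ 4 * K * (t : ℝ) ^ 2 := by
      have h3 : 1 + Real.log Y ≤ 2 * (K * t) := by nlinarith
      calc ((t : ℝ) + 1) * (1 + Real.log Y) ≤ (t + 1) * (2 * (K * t)) :=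
            mul_le_mul_of_nonneg_left h3 (by positivity)
        _ ≤ (2 * t) * (2 * (K * t)) := mul_le_mul_of_nonneg_right (by linarith) (by positivity)
        _ = _ := by ring
    have h3 : c * (R * (t : ℝ) ^ 4 * 2 ^ (w * l ^ 2)) ≤ P.card * (4 * K * (t : ℝ) ^ 2) := by
      calc c * (R * (t : ℝ) ^ 4 * 2 ^ (w * l ^ 2)) ≤ c * (Q.card.choose u : ℝ) :=
            mul_le_mul_of_nonneg_left (hbig.trans h1) hc.le
        _ ≤ P.card * (((t : ℝ) + 1) * (1 + Real.log Y)) := hPc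
        _ ≤ _ := mul_le_mul_of_nonneg_left hW (Nat.cast_nonneg _)
    have h4 : 4 * K ≤ c * R := by
      rw [div_le_iff₀ hc] at hR2
      linarith
    have h5 : 4 * K * (t : ℝ) ^ 2 * ((m : ℝ) * (t : ℝ) ^ 2) ≤ 4 * K * (t : ℝ) ^ 2 * P.card := by
      calc 4 * K * (t : ℝ) ^ 2 * ((m : ℝ) * (t : ℝ) ^ 2)
          ≤ 4 * K * (t : ℝ) ^ 2 * ((t : ℝ) ^ 2 * 2 ^ (w * l ^ 2)) :=
            mul_le_mul_of_nonneg_left hmt (by positivity)
        _ = 4 * K * ((t : ℝ) ^ 4 * 2 ^ (w * l ^ 2)) := by ring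
        _ ≤ c * R * ((t : ℝ) ^ 4 * 2 ^ (w * l ^ 2)) := mul_le_mul_of_nonneg_right h4 (by positivity)
        _ = c * (R * (t : ℝ) ^ 4 * 2 ^ (w * l ^ 2)) := by ring
        _ ≤ P.card * (4 * K * (t : ℝ) ^ 2) := h3
        _ = _ := by ring
    have h6 : (m : ℝ) * (t : ℝ) ^ 2 ≤ P.card := le_of_mul_le_mul_left h5 (by positivity)
    exact_mod_cast h6
  have hXY : Y ≤ M * pr B := by
    refine le_trans ?_ hMB
    calc Y = 2 ^ (v * K) := by rw [hY, hX, ← pow_mul]
      _ ≤ 2 ^ Q.card := Nat.pow_le_pow_right (by norm_num) (by nlinarith)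
      _ ≤ pr Q := by
        unfold pr
        exact Finset.pow_card_le_prod _ _ _ fun q hq => (hQp q hq).two_le
  obtain ⟨n, hn1, hn2, hn3⟩ := carm M B hBp hcop X Y P hP (fun q hq => (hQt q (hBQ hq)).trans htX)
    hXY m hm0 (fun q hq => by
      have h1 := mem_SP.1 (hQS (hBQ hq))
      have h2 := h1.2.1.two_le
      rw [hm]
      exact dvd_fact_pow (by omega) (by omega) h1.2.2) (m * t ^ 2) hPN (by
      apply zs_bound (by omega) hm0
      have h1 : (pr B).totient ≤ t ^ t := by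
        refine (Nat.totient_le _).trans ((hprle B hBQ).trans ?_)
        apply Nat.pow_le_pow_right (by omega)
        calc B.card ≤ Q.card := Finset.card_le_card hBQ
          _ ≤ (Icc 1 t).card := Finset.card_le_card hQI
          _ = t := by simp
      exact_mod_cast h1) hX1
  refine ⟨n, by omega, by omega, hn2, lt_of_lt_of_le ?_ hn3⟩
  have hn0 : (0 : ℝ) < n := by
    have : 0 < n := by omega
    exact_mod_cast this
  apply mul_lt_mul_of_pos_right _ hn0
  have hX0 : (0 : ℝ) < X := by exact_mod_cast hX1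
  have h1 : ((m * t ^ 2 : ℕ) : ℝ) / X < ε := by
    rw [div_lt_iff₀ hX0]
    push_cast
    have h2 : R * ((m : ℝ) * (t : ℝ) ^ 2) ≤ X := by
      calc R * ((m : ℝ) * (t : ℝ) ^ 2) ≤ R * ((t : ℝ) ^ 2 * 2 ^ (w * l ^ 2)) :=
            mul_le_mul_of_nonneg_left hmt (by positivity)
        _ ≤ R * ((t : ℝ) ^ 4 * 2 ^ (w * l ^ 2)) := by
            apply mul_le_mul_of_nonneg_left _ (by positivity)
            apply mul_le_mul_of_nonneg_right _ (by positivity)
            exact pow_le_pow_right₀ ht1 (by norm_num)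
        _ = R * (t : ℝ) ^ 4 * 2 ^ (w * l ^ 2) := by ring
        _ ≤ X := hbig.trans h2uX
    have h3 : 2 ≤ ε * R := by
      rw [div_le_iff₀ hε] at hR3
      linarith
    have h4 : (0 : ℝ) < (m : ℝ) * (t : ℝ) ^ 2 := by
      have : (0 : ℝ) < m := by exact_mod_cast hm0
      positivity
    nlinarith
  linarith

end Pool.Agent.L0h73.CN
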