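import Mathlib.NumberTheory.DirichletCharacter.Orthogonality
import Mathlib.NumberTheory.LSeries.PrimesInAP
import Mathlib.Analysis.SpecialFunctions.Pow.Real

/-!
Zero-sum subsequences in `(ℤ/L)ˣ`: a sequence of more than `m log φ(L)` elements whose `m`-th powers
are `1` has a nonempty subsequence with product `1` (van Emde Boas and Kruyswijk, Meshulam).
-/

set_option autoImplicit false

namespace Pool.Agent.L0h73.CN

open Finset

/-- The character `χ` is not covered by the values `z i`, `i ∈ s`. -/
def Unc {ι : Type*} {L : ℕ} (a : ι → ZMod L) (z : ι → ℂ) (s : Finset ι)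
    (χ : DirichletCharacter ℂ L) : Prop := ∀ i ∈ s, χ (a i) ≠ z i

open Classical in
/-- Greedy choice of roots of unity which cover all the characters of a set `C`. -/
lemma greedy {ι : Type*} (L : ℕ) [NeZero L] (m : ℕ) (hm : 0 < m)
    (a : ι → ZMod L) (ha : ∀ i, a i ^ m = 1) (s : Finset ι) :
    ∃ z : ι → ℂ, (∀ i, z i ≠ 0) ∧
      (((univ : Finset (DirichletCharacter ℂ L)).filter (fun χ => Unc a z s χ)).card : ℝ) ≤
        (Fintype.card (DirichletCharacter ℂ L) : ℝ) * (1 - 1 / m) ^ s.card := by
  have hm0 : (0 : ℝ) < m := by exact_mod_cast hm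
  induction s using Finset.induction_on with
  | empty =>
    refine ⟨fun _ => 1, fun _ => one_ne_zero, ?_⟩
    rw [card_empty, pow_zero, mul_one, Nat.cast_le]
    exact Finset.card_le_univ _
  | insert i₀ s hi ih =>
    obtain ⟨z, hz0, hz⟩ := ih
    set C := (univ : Finset (DirichletCharacter ℂ L)).filter (fun χ => Unc a z s χ) with hC
    set R : Finset ℂ := (Polynomial.nthRootsFinset m (1 : ℂ)) with hR
    have hmaps : ∀ χ ∈ C, χ (a i₀) ∈ R := by
      intro χ _
      rw [hR, Polynomial.mem_nthRootsFinset hm, ← map_pow, ha, map_one]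
    have hRc : R.card ≤ m := by
      rw [hR, Polynomial.nthRootsFinset]
      refine (Multiset.toFinset_card_le _).trans ?_
      exact Polynomial.card_nthRoots m 1
    have hsum : ∑ w ∈ R, ((C.filter (fun χ => χ (a i₀) = w)).card : ℝ) = C.card := by
      rw [← Nat.cast_sum, ← Finset.card_eq_sum_card_fiberwise hmaps]
    have h1R : (1 : ℂ) ∈ R := by
      rw [hR, Polynomial.mem_nthRootsFinset hm, one_pow]
    obtain ⟨w, hw, hwc⟩ : ∃ w ∈ R, (C.card : ℝ) / m ≤ ((C.filter (fun χ => χ (a i₀) = w)).card : ℝ) := by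
      by_contra hcon
      push Not at hcon
      have h2 : ∑ w ∈ R, ((C.filter (fun χ => χ (a i₀) = w)).card : ℝ) < ∑ w ∈ R, (C.card : ℝ) / m :=
        Finset.sum_lt_sum_of_nonempty ⟨1, h1R⟩ hcon
      rw [hsum, Finset.sum_const, nsmul_eq_mul] at h2
      have h3 : (R.card : ℝ) * ((C.card : ℝ) / m) ≤ m * ((C.card : ℝ) / m) := by
        apply mul_le_mul_of_nonneg_right _ (by positivity)
        exact_mod_cast hRc
      have h4 : (m : ℝ) * ((C.card : ℝ) / m) = C.card := by field_simp
      linarith
    have hw0 : w ≠ 0 := by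
      rw [hR, Polynomial.mem_nthRootsFinset hm] at hw
      intro h0
      rw [h0, zero_pow (by omega)] at hw
      exact zero_ne_one hw
    refine ⟨Function.update z i₀ w, ?_, ?_⟩
    · intro i
      by_cases h : i = i₀
      · subst h; simpa using hw0
      · rw [Function.update_of_ne h]; exact hz0 i
    · have hsub : (univ : Finset (DirichletCharacter ℂ L)).filter
          (fun χ => Unc a (Function.update z i₀ w) (insert i₀ s) χ) ⊆
          C \ C.filter (fun χ => χ (a i₀) = w) := by
        intro χ hχ
        have hχ2 := (Finset.mem_filter.1 hχ).2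
        have h1 := hχ2 i₀ (mem_insert_self _ _)
        rw [Function.update_self] at h1
        refine mem_sdiff.2 ⟨mem_filter.2 ⟨mem_univ _, fun i his => ?_⟩, fun h => h1 (mem_filter.1 h).2⟩
        have h2 := hχ2 i (mem_insert_of_mem his)
        rwa [Function.update_of_ne (by rintro rfl; exact hi his)] at h2
      have hcard : (((univ : Finset (DirichletCharacter ℂ L)).filter
          (fun χ => Unc a (Function.update z i₀ w) (insert i₀ s) χ)).card : ℝ) ≤
          (C.card : ℝ) - (C.filter (fun χ => χ (a i₀) = w)).card := by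
        have h1 := Finset.card_le_card hsub
        have h2 : (C \ C.filter (fun χ => χ (a i₀) = w)).card + (C.filter (fun χ => χ (a i₀) = w)).card
            = C.card := Finset.card_sdiff_add_card_eq_card (filter_subset _ _)
        have h3 : (((univ : Finset (DirichletCharacter ℂ L)).filter
          (fun χ => Unc a (Function.update z i₀ w) (insert i₀ s) χ)).card : ℝ) ≤
          ((C \ C.filter (fun χ => χ (a i₀) = w)).card : ℝ) := by exact_mod_cast h1
        have h4 : ((C \ C.filter (fun χ => χ (a i₀) = w)).card : ℝ) +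
            ((C.filter (fun χ => χ (a i₀) = w)).card : ℝ) = C.card := by exact_mod_cast h2
        linarith
      refine hcard.trans ?_
      rw [card_insert_of_notMem hi, pow_succ, ← mul_assoc]
      have h5 : (C.card : ℝ) * (1 - 1 / m) ≤
          (Fintype.card (DirichletCharacter ℂ L) : ℝ) * (1 - 1 / m) ^ s.card * (1 - 1 / m) := by
        apply mul_le_mul_of_nonneg_right hz
        rw [sub_nonneg, div_le_one hm0]
        exact_mod_cast hm
      have h6 : (C.card : ℝ) * (1 - 1 / m) = C.card - C.card / m := by ring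
      linarith

open Classical in
/-- A long sequence has a nonempty subsequence with product `1`. -/
theorem zero_sum {ι : Type*} (L : ℕ) [NeZero L] (m : ℕ) (hm : 0 < m)
    (a : ι → ZMod L) (ha : ∀ i, a i ^ m = 1) (s : Finset ι)
    (hs : (L.totient : ℝ) * (1 - 1 / m) ^ s.card < 1) :
    ∃ T ⊆ s, T.Nonempty ∧ ∏ i ∈ T, a i = 1 := by
  obtain ⟨z, hz0, hz⟩ := greedy L m hm a ha s
  have hcard : (Fintype.card (DirichletCharacter ℂ L) : ℝ) = L.totient := by
    have := DirichletCharacter.card_eq_totient_of_hasEnoughRootsOfUnity ℂ L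
    rw [← this, Nat.card_eq_fintype_card]
  rw [hcard] at hz
  have hempty : ((univ : Finset (DirichletCharacter ℂ L)).filter
      (fun χ => Unc a z s χ)).card = 0 := by
    have h1 := lt_of_le_of_lt hz hs
    have h2 : ((univ : Finset (DirichletCharacter ℂ L)).filter
      (fun χ => Unc a z s χ)).card < 1 := by exact_mod_cast h1
    omega
  have hempty := Finset.filter_eq_empty_iff.1 (Finset.card_eq_zero.1 hempty)
  by_contra hcon
  push Not at hcon
  have hprod : ∀ χ : DirichletCharacter ℂ L, ∏ i ∈ s, (χ (a i) - z i) = 0 := by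
    intro χ
    have h1 := hempty (mem_univ χ)
    unfold Unc at h1
    push Not at h1
    obtain ⟨i, hi, h2⟩ := h1
    exact Finset.prod_eq_zero hi (by rw [h2, sub_self])
  have hsum : ∑ χ : DirichletCharacter ℂ L, ∏ i ∈ s, (χ (a i) - z i) = 0 :=
    Finset.sum_eq_zero fun χ _ => hprod χ
  have hexp : ∀ χ : DirichletCharacter ℂ L, ∏ i ∈ s, (χ (a i) - z i) =
      ∑ T ∈ s.powerset, χ (∏ i ∈ T, a i) * ∏ i ∈ s \ T, (-z i) := by
    intro χ
    have h1 := Finset.prod_add (fun i => χ (a i)) (fun i => -z i) s
    simp only [← sub_eq_add_neg] at h1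
    rw [h1]
    refine Finset.sum_congr rfl fun T _ => ?_
    rw [map_prod]
  simp only [hexp] at hsum
  rw [Finset.sum_comm] at hsum
  have h3 : ∀ T ∈ s.powerset, ∑ χ : DirichletCharacter ℂ L, χ (∏ i ∈ T, a i) * ∏ i ∈ s \ T, (-z i) =
      if T = ∅ then (L.totient : ℂ) * ∏ i ∈ s, (-z i) else 0 := by
    intro T hT
    rw [← Finset.sum_mul, DirichletCharacter.sum_characters_eq]
    split_ifs with h1 h2 h2
    · subst h2; simp
    · exfalso
      exact hcon T (mem_powerset.1 hT) (Finset.nonempty_iff_ne_empty.2 h2) h1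
    · subst h2; simp at h1
    · simp
  rw [Finset.sum_congr rfl h3, Finset.sum_ite_eq' s.powerset ∅] at hsum
  rw [if_pos (empty_mem_powerset s)] at hsum
  rcases mul_eq_zero.1 hsum with h4 | h4
  · have h5 : L.totient = 0 := by exact_mod_cast h4
    have h6 : 0 < L.totient := Nat.totient_pos.2 (NeZero.pos L)
    omega
  · obtain ⟨i, _, hi⟩ := Finset.prod_eq_zero_iff.1 h4
    exact hz0 i (neg_eq_zero.1 hi)

end Pool.Agent.L0h73.CN
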